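import Pool.Agent.Q101.HexE

/-!
# MP_65983e: a cofinally Fraisse Banach space which is not omega-categorical

The notions `IsCofinallyFraisse`, `IsGuardedFraisse` and `IsCompactQuotient` (compactness of
`(B_X)^n // Iso(X)`) are those of the problem; see `Pool.Agent.Q101.HexE`.

The space is the `ℓ₂`-sum of the planes with hexagonal unit balls
`{|a| ≤ 1, |b| ≤ 1, |a + b| ≤ 1 + 1/(n+2)}`, `n = 0, 1, 2, …`.
-/

set_option autoImplicit false

namespace Pool.Agent.Results.MP_65983e_an.NotOmegaCategorical

open Q101.Fraisse

/-- **Negative answers to Q1 and Q2.** There is an infinite-dimensional separable Banach space `X`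
which is cofinally Fraisse and guarded Fraisse and for which `(B_X)^1 // Iso(X)` is not compact;
so `X` is not omega-categorical. -/
theorem result : ∃ (X : Type) (_ : NormedAddCommGroup X) (_ : NormedSpace ℝ X),
    CompleteSpace X ∧ TopologicalSpace.SeparableSpace X ∧ ¬ FiniteDimensional ℝ X ∧
      IsCofinallyFraisse X ∧ IsGuardedFraisse X ∧
      ¬ IsCompactQuotient X 1 ∧ ¬ IsOmegaCategorical X :=
  ⟨Q101.Hex.X, inferInstance, inferInstance, inferInstance, Q101.Hex.separable,
    Q101.Hex.infinite_dim, Q101.Hex.cofinally, Q101.Hex.guarded, Q101.Hex.not_compact,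
    fun h => Q101.Hex.not_compact (h 1)⟩

end Pool.Agent.Results.MP_65983e_an.NotOmegaCategorical
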